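import Pool.Agent.K.MP_e59a69_co.C3
import Pool.Agent.P.MP_e59a69_co.TfA

open Finset Pool.Agent.P.MP_e59a69_co

theorem Pool.Agent.Results.MP_e59a69_co.AllGraphs.result :
    ∃ k : ℕ, ∀ (V E : Type) [Fintype V] [Fintype E] [DecidableEq V] [DecidableEq E]
      (src tgt : E → V), (∀ X : Finset V, #{e | ¬ (src e ∈ X ↔ tgt e ∈ X)} ≠ 1) →
      (∀ X : Finset V, HasCycleIn src tgt X → HasCycleIn src tgt Xᶜ →
        #{e | ¬ (src e ∈ X ↔ tgt e ∈ X)} ≤ 2 ∨ k ≤ #{e | ¬ (src e ∈ X ↔ tgt e ∈ X)}) →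
      ∃ φ₂ φ₄ : E → ℤ, IsKFlow src tgt 2 φ₂ ∧ IsKFlow src tgt 4 φ₄ ∧
        ∀ e, φ₂ e = 0 → 2 ≤ |φ₄ e| := by
  obtain ⟨k, hk⟩ := all_main
  refine ⟨k, fun V E _ _ _ _ src tgt h1 hc => ?_⟩
  obtain ⟨φ, ψ, a, b, c, d, e⟩ := hk V E src tgt h1 fun X ⟨Z, p, C, q, _⟩ ⟨Z', p', C', q', _⟩ =>
    hc X (cycle_of_cy ⟨Z, p, C, q⟩) (cycle_of_cy ⟨Z', p', C', q'⟩)
  exact ⟨φ, ψ, kflow_of_bdry _ _ _ _ a c, kflow_of_bdry _ _ _ _ b d, e⟩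

/-- The graphs of the class have an integer nowhere-zero 5-flow. -/
theorem Pool.Agent.Results.MP_e59a69_co.AllGraphs.five_flow :
    ∃ k : ℕ, ∀ (V E : Type) [Fintype V] [Fintype E] [DecidableEq V] [DecidableEq E]
      (src tgt : E → V), (∀ X : Finset V, #{e | ¬ (src e ∈ X ↔ tgt e ∈ X)} ≠ 1) →
      (∀ X : Finset V, HasCycleIn src tgt X → HasCycleIn src tgt (X)ᶜ →
        #{e | ¬ (src e ∈ X ↔ tgt e ∈ X)} ≤ 2 ∨ k ≤ #{e | ¬ (src e ∈ X ↔ tgt e ∈ X)}) →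
      ∃ φ : E → ℤ, IsKFlow src tgt 5 φ ∧ ∀ e, φ e ≠ 0 := by
  obtain ⟨k, hk⟩ := Pool.Agent.Results.MP_e59a69_co.AllGraphs.result
  refine ⟨k, fun V E _ _ _ _ src tgt h1 hc => ?_⟩
  obtain ⟨φ, ψ, a, b, c⟩ := hk V E src tgt h1 hc
  exact Tf.five a b c

/-- The plain form: bridgeless graphs of cyclic edge-connectivity at least `k`. -/
theorem Pool.Agent.Results.MP_e59a69_co.AllGraphs.cyclic :
    ∃ k : ℕ, ∀ (V E : Type) [Fintype V] [Fintype E] [DecidableEq V] [DecidableEq E]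
      (src tgt : E → V), (∀ X : Finset V, #{e | ¬ (src e ∈ X ↔ tgt e ∈ X)} ≠ 1) →
      (∀ X : Finset V, HasCycleIn src tgt X → HasCycleIn src tgt (X)ᶜ →
        k ≤ #{e | ¬ (src e ∈ X ↔ tgt e ∈ X)}) →
      (∃ φ₂ φ₄ : E → ℤ, IsKFlow src tgt 2 φ₂ ∧ IsKFlow src tgt 4 φ₄ ∧
        ∀ e, φ₂ e = 0 → 2 ≤ |φ₄ e|) ∧ ∃ φ : E → ℤ, IsKFlow src tgt 5 φ ∧ ∀ e, φ e ≠ 0 := by
  obtain ⟨k, hk⟩ := Pool.Agent.Results.MP_e59a69_co.AllGraphs.result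
  refine ⟨k, fun V E _ _ _ _ src tgt h1 hc => ?_⟩
  obtain ⟨φ, ψ, a, b, c⟩ := hk V E src tgt h1 fun X p q => Or.inr (hc X p q)
  exact ⟨⟨φ, ψ, a, b, c⟩, Tf.five a b c⟩

/-- Control: for every `k` the class holds a cubic graph with two disjoint cycles. -/
theorem Pool.Agent.Results.MP_e59a69_co.AllGraphs.cubic_example (k : ℕ) :
    ∃ (V E : Type) (_ : Fintype V) (_ : Fintype E) (_ : DecidableEq V) (_ : DecidableEq E)
      (src tgt : E → V), (∀ v, degIn src tgt univ v = 3) ∧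
      (∀ X : Finset V, #{e | ¬ (src e ∈ X ↔ tgt e ∈ X)} ≠ 1) ∧
      (∀ X : Finset V, HasCycleIn src tgt X → HasCycleIn src tgt (X)ᶜ →
        k ≤ #{e | ¬ (src e ∈ X ↔ tgt e ∈ X)}) ∧
      ∃ X : Finset V, HasCycleIn src tgt X ∧ HasCycleIn src tgt (X)ᶜ :=
  Tf.cubic k

/-- Control: no cut has one edge exactly if the ends of every edge are joined by a walk that
avoids the edge. -/
theorem Pool.Agent.Results.MP_e59a69_co.AllGraphs.bridgeless_iff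
    (V E : Type) [Fintype V] [Fintype E] [DecidableEq V] [DecidableEq E] (src tgt : E → V) :
    (∀ X : Finset V, #{e | ¬ (src e ∈ X ↔ tgt e ∈ X)} ≠ 1) ↔
      ∀ e, ∃ (n : ℕ) (p : ℕ → V), p 0 = src e ∧ p n = tgt e ∧ ∀ i, i < n → ∃ f, f ≠ e ∧
        ((src f = p i ∧ tgt f = p (i + 1)) ∨ (tgt f = p i ∧ src f = p (i + 1))) :=
  Tf.walk_iff

/-- Control: a bridge forbids a pair. -/
theorem Pool.Agent.Results.MP_e59a69_co.AllGraphs.bridge_forbids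
    (V E : Type) [Fintype V] [Fintype E] [DecidableEq V] [DecidableEq E] (src tgt : E → V)
    (X : Finset V) (h : #{e | ¬ (src e ∈ X ↔ tgt e ∈ X)} = 1) :
    ¬ ∃ φ₂ φ₄ : E → ℤ, IsKFlow src tgt 2 φ₂ ∧ IsKFlow src tgt 4 φ₄ ∧
      ∀ e, φ₂ e = 0 → 2 ≤ |φ₄ e| := by
  rintro ⟨φ, ψ, a, b, c⟩
  obtain ⟨e, p, q⟩ := Tf.bridge h a b
  have := c e p
  rw [q, abs_zero] at this
  omega
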