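import Pool.Agent.K.MP_e59a69_co.C0

open Finset Pool.Agent.P.MP_e59a69_co

theorem Pool.Agent.Results.MP_e59a69_co.OddnessConn.result
    {V E : Type} [Fintype V] [Fintype E] [DecidableEq V] [DecidableEq E] (src tgt : E → V)
    (hcubic : ∀ v, degIn src tgt univ v = 3)
    (F : Finset E) (hF : ∀ v, degIn src tgt F v = 2)
    (hcut : ∀ X : Finset V, HasCycleIn src tgt X → HasCycleIn src tgt Xᶜ →
      5 * numOddComps src tgt F ≤ 2 * #{e | ¬ (src e ∈ X ↔ tgt e ∈ X)} + 2) :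
    ∃ φ₂ φ₄ : E → ℤ, IsKFlow src tgt 2 φ₂ ∧ IsKFlow src tgt 4 φ₄ ∧
      (∀ e, φ₂ e = 0 → 2 ≤ |φ₄ e|) ∧ ∀ e, φ₂ e ≠ 0 ↔ e ∈ F :=
  cubic_main src tgt hcubic F hF hcut
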