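import Pool.Agent.P.MP_e59a69_co.OeMain

open Finset Pool.Agent.P.MP_e59a69_co

theorem Pool.Agent.Results.MP_e59a69_co.OneEdge.result
    {V E : Type} [Fintype V] [Fintype E] [DecidableEq V] [DecidableEq E] (src tgt : E → V)
    (hb : ∀ X : Finset V, #{e | ¬ (src e ∈ X ↔ tgt e ∈ X)} ≠ 1)
    (e₀ : E) (f : E → ℤ) (hf : IsKFlow src tgt 4 f) (hz : ∀ e, e ≠ e₀ → f e ≠ 0) :
    ∃ φ₂ φ₄ : E → ℤ, IsKFlow src tgt 2 φ₂ ∧ IsKFlow src tgt 4 φ₄ ∧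
      ∀ e, φ₂ e = 0 → 2 ≤ |φ₄ e| :=
  OE.one_edge src tgt hb e₀ f hf hz
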