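import Pool.Agent.K.MP_e59a69_co.C4

open Finset Pool.Agent.P.MP_e59a69_co

theorem Pool.Agent.Results.MP_e59a69_co.ShortRange.result :
    ∃ (g : ℕ) (η : ℝ), 0 < η ∧ ∀ (V E : Type) [Fintype V] [Fintype E] [DecidableEq V]
      [DecidableEq E] (src tgt : E → V), (∀ v, degIn src tgt univ v = 3) →
      (∀ X : Finset V, HasCycleIn src tgt X → g ≤ #X) →
      (∀ v, ∑ e with src e = v, effRes src tgt e + ∑ e with tgt e = v, effRes src tgt e ≤ 2 + η) →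
      ∀ F : Finset E, (∀ v, degIn src tgt F v = 2) →
      ∃ φ₂ φ₄ : E → ℤ, IsKFlow src tgt 2 φ₂ ∧ IsKFlow src tgt 4 φ₄ ∧
        (∀ e, φ₂ e = 0 → 2 ≤ |φ₄ e|) ∧ ∀ e, φ₂ e ≠ 0 ↔ e ∈ F :=
  short_main
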